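import Pool.Agent.Y448.RZ.Loc

/-!
# Project MT: the groups `VG M L` at a new prime of the third class
-/

set_option autoImplicit false

namespace Pool.Agent.Y587.MT

open Finset Pool.Agent.W262.RK Pool.Agent.W307.RT Pool.Agent.W307.RS Pool.Agent.W307.SE
  Pool.Agent.W307.FK Pool.Agent.W214.RK2 Pool.Agent.Y667.RP Pool.Agent.Y667.RZ
  Pool.Agent.Y448.RZ

lemma sp2_injOn {A : Set (ℤ × ℤ)} {x : ℤ × ℤ} (hx1 : Squarefree x.1) (hx2 : Squarefree x.2)
    (hA : ∀ w ∈ A, Squarefree w.1 ∧ Squarefree w.2) : Set.InjOn (sp2 x) A := by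
  intro d hd e he h
  unfold sp2 at h
  rw [Prod.mk.injEq] at h
  exact Prod.ext (sp_inj hx1 (hA d hd).1 (hA e he).1 h.1) (sp_inj hx2 (hA d hd).2 (hA e he).2 h.2)

/-- classes at the old level are unramified at the new prime -/
lemma VG_unr {M p : ℕ} {L : Pool.Agent.Y448.RZ.LC} (hp : p.Prime) (hp2 : p ≠ 2) (hpM : ¬ p ∣ M) {w : ℤ × ℤ}
    (hw : w ∈ VG M L) : dv p w.1 = false ∧ dv p w.2 = false := by
  constructor
  · unfold dv
    rw [decide_eq_false_iff_not]
    exact fun h => hpM (hw.2.2.2.2.1 p hp h)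
  · unfold dv
    rw [decide_eq_false_iff_not]
    intro h
    exact hpM (two_dvd_elim hp hp2 (hw.2.2.2.2.2.1 p hp h))

/-- a class at the old level with trivial symbol at the new prime is a class at the new level -/
lemma VG_up {M p : ℕ} {L L1 : Pool.Agent.Y448.RZ.LC} {neg : Bool} (hM : M ≠ 0) (hp : p.Prime) (hp2 : p ≠ 2)
    (hpM : ¬ p ∣ M)
    (hup : ∀ q ∈ M.primeFactors, ∀ v w h g, L q v w h g → L1 q v w h g)
    (hnew : ∀ v w h g, LR 2 neg v w h g → L1 p v w h g) {w : ℤ × ℤ} (hw : w ∈ VG M L)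
    (h0 : sgn p w.1 = false) : w ∈ VG (M * p) L1 := by
  obtain ⟨u1, u2⟩ := VG_unr hp hp2 hpM hw
  obtain ⟨d1, d2, d3, d4, d5, d6, d7⟩ := hw
  refine ⟨d1, d2, d3, d4, fun q hq h => (d5 q hq h).mul_right _, fun q hq h => ?_, ?_⟩
  · rw [← mul_assoc]
    exact (d6 q hq h).mul_right _
  · intro q hq
    have hqp := Nat.prime_of_mem_primeFactors hq
    rcases (hqp.dvd_mul).1 (Nat.dvd_of_mem_primeFactors hq) with h | h
    · have hqM : q ∈ M.primeFactors := Nat.mem_primeFactors.2 ⟨hqp, h, hM⟩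
      exact hup q hqM _ _ _ _ (d7 q hqM)
    · have : q = p := (Nat.prime_dvd_prime_iff_eq hqp hp).1 h
      subst this
      apply hnew
      rw [u1, u2, h0]
      unfold LR
      simp

/-- a new prime at most halves the group -/
theorem GRPa {M p : ℕ} {L L1 : Pool.Agent.Y448.RZ.LC} {neg : Bool} (hM : M ≠ 0) (hp : p.Prime) (hp2 : p ≠ 2)
    (hpM : ¬ p ∣ M) (hX : ∀ q ∈ M.primeFactors, XC (L q))
    (hup : ∀ q ∈ M.primeFactors, ∀ v w h g, L q v w h g → L1 q v w h g)
    (hnew : ∀ v w h g, LR 2 neg v w h g → L1 p v w h g) (hfin : (VG M L).Finite)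
    (hfin1 : (VG (M * p) L1).Finite) : (VG M L).ncard ≤ 2 * (VG (M * p) L1).ncard := by
  classical
  set K : Set (ℤ × ℤ) := {w ∈ VG M L | sgn p w.1 = false} with hK
  have hKV : K ⊆ VG M L := fun w hw => hw.1
  have hK1 : K ⊆ VG (M * p) L1 := fun w hw => VG_up hM hp hp2 hpM hup hnew hw.1 hw.2
  have hKfin : K.Finite := hfin.subset hKV
  have h1 : (VG M L \ K).ncard ≤ K.ncard := by
    rcases Set.eq_empty_or_nonempty (VG M L \ K) with he | ⟨w0, hw0⟩
    · rw [he]; simp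
    · have hs0 : sgn p w0.1 = true := by
        by_contra hc
        exact hw0.2 ⟨hw0.1, by simpa using hc⟩
      have hinj : Set.InjOn (sp2 w0) (VG M L \ K) :=
        sp2_injOn hw0.1.1 hw0.1.2.1 (fun w hw => ⟨hw.1.1, hw.1.2.1⟩)
      rw [← hinj.ncard_image]
      apply Set.ncard_le_ncard _ hKfin
      rintro _ ⟨w, hw, rfl⟩
      have hs1 : sgn p w.1 = true := by
        by_contra hc
        exact hw.2 ⟨hw.1, by simpa using hc⟩
      refine ⟨VG_mul hX hw0.1 hw.1, ?_⟩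
      have := (sp_dv hw0.1.1 hw.1.1 p hp).2
      show sgn p (sp w0.1 w.1) = false
      rw [this, hs0, hs1]
      rfl
  have h2 : (VG M L).ncard ≤ (VG M L \ K).ncard + K.ncard := by
    have : VG M L = (VG M L \ K) ∪ K := by
      rw [Set.sdiff_union_of_subset hKV]
    calc (VG M L).ncard = ((VG M L \ K) ∪ K).ncard := by rw [← this]
      _ ≤ _ := Set.ncard_union_le _ _
  have h3 : K.ncard ≤ (VG (M * p) L1).ncard := Set.ncard_le_ncard hK1 hfin1
  omega

/-- a new class doubles the group -/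
theorem GRPb {M p : ℕ} {L L1 : Pool.Agent.Y448.RZ.LC} {neg : Bool} (hM : M ≠ 0) (hodd : Odd M) (hp : p.Prime)
    (hp2 : p ≠ 2) (hpM : ¬ p ∣ M) (hX : ∀ q ∈ M.primeFactors, XC (L q))
    (hX1 : ∀ q ∈ (M * p).primeFactors, XC (L1 q)) (hI : ∀ q ∈ M.primeFactors, Iso q (L q))
    (hup : ∀ q ∈ M.primeFactors, ∀ v w h g, L q v w h g → L1 q v w h g)
    (hdown : ∀ q ∈ M.primeFactors, ∀ v w h g, L1 q v w h g → L q v w h g)
    (hnew : ∀ v w h g, LR 2 neg v w h g → L1 p v w h g)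
    (hnew' : ∀ v w h g, L1 p v w h g → LR 2 neg v w h g) (hfin : (VG M L).Finite)
    (hfin1 : (VG (M * p) L1).Finite) (hne : ¬ VG (M * p) L1 ⊆ VG M L) :
    (VG (M * p) L1).ncard = 2 * (VG M L).ncard := by
  classical
  have hle := NG2 (j := 2) (neg := neg) hM hp hp2 hX hdown hnew' hfin
  have hall : VG M L ⊆ VG (M * p) L1 := by
    intro w hw
    apply VG_up hM hp hp2 hpM hup hnew hw
    by_contra hc
    have hc' : sgn p w.1 = true := by simpa using hc
    refine hne (KILLG (j := 2) (neg := neg) hM hodd hp hp2 hpM hX hI hdown hnew' hw ?_ hfin).1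
    unfold phi
    simpa using hc'
  rw [Set.not_subset] at hne
  obtain ⟨x, hx, hx'⟩ := hne
  have hram : ¬ (dv p x.1 = false ∧ dv p x.2 = false) :=
    fun h => hx' (VG_restrict hM hp hdown hx h.1 h.2)
  have hinj : Set.InjOn (sp2 x) (VG M L) :=
    sp2_injOn hx.1 hx.2.1 (fun w hw => ⟨hw.1, hw.2.1⟩)
  have hdisj : Disjoint (VG M L) (sp2 x '' VG M L) := by
    rw [Set.disjoint_left]
    rintro y hy ⟨w, hw, rfl⟩
    obtain ⟨a1, a2⟩ := VG_unr hp hp2 hpM hy
    obtain ⟨b1, b2⟩ := VG_unr hp hp2 hpM hw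
    have e1 := (sp_dv hx.1 hw.1 p hp).1
    have e2 := (sp_dv hx.2.1 hw.2.1 p hp).1
    simp only [sp2] at a1 a2
    rw [e1, b1, Bool.xor_false] at a1
    rw [e2, b2, Bool.xor_false] at a2
    exact hram ⟨a1, a2⟩
  have hunion : VG M L ∪ sp2 x '' VG M L ⊆ VG (M * p) L1 := by
    rintro y (hy | ⟨w, hw, rfl⟩)
    · exact hall hy
    · exact VG_mul hX1 hx (hall hw)
  have h1 := Set.ncard_le_ncard hunion hfin1
  rw [Set.ncard_union_eq hdisj hfin (hfin.image _), hinj.ncard_image] at h1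
  omega

section upd

variable {s : Fin 3 → ℕ} {j : Fin 3} {p : ℕ} {E E' : Finset ℕ}

lemma LF_up (hp : p.Prime) (hE : E' ∩ (∏ j, s j).primeFactors = E ∩ (∏ j, s j).primeFactors)
    (hps : ¬ p ∣ ∏ j, s j) :
    ∀ q ∈ (∏ j, s j).primeFactors, ∀ v w h g,
      LF s E q v w h g → LF (Function.update s j (s j * p)) E' q v w h g := by
  intro q hq v w h g hL
  refine LF_congr (mem_iff_of_inter hE hq).symm ?_
  intro l hl
  apply hL l
  have hqp := Nat.prime_of_mem_primeFactors hq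
  by_cases hlj : l = j
  · subst hlj
    rw [Function.update_self] at hl
    rcases (hqp.dvd_mul).1 hl with h1 | h1
    · exact h1
    · exfalso
      have h2 : q = p := (Nat.prime_dvd_prime_iff_eq hqp hp).1 h1
      subst h2
      exact hps (Nat.dvd_of_mem_primeFactors hq)
  · rwa [Function.update_of_ne hlj] at hl

lemma LR_LF (hps : ¬ p ∣ ∏ j, s j) : ∀ v w h g, LR j (decide (p ∈ E')) v w h g →
    LF (Function.update s j (s j * p)) E' p v w h g := by
  intro v w h g hL l hl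
  by_cases hlj : l = j
  · subst hlj
    exact hL
  · rw [Function.update_of_ne hlj] at hl
    exact absurd (hl.trans (Finset.dvd_prod_of_mem _ (Finset.mem_univ l))) hps

lemma L17_up (hs : (∏ j, s j) ≠ 0) (hp : p.Prime)
    (hE : E' ∩ (∏ j, s j).primeFactors = E ∩ (∏ j, s j).primeFactors)
    (hps : ¬ p ∣ ∏ j, s j) :
    ∀ q ∈ (17 * ∏ j, s j).primeFactors, ∀ v w h g,
      L17 s E q v w h g → L17 (Function.update s j (s j * p)) E' q v w h g := by
  intro q hq v w h g hL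
  unfold L17 at hL ⊢
  split_ifs at hL ⊢ with h17
  · exact hL
  · have hqm := pf17 hq h17
    have hE2 : (tw (∏ l, Function.update s j (s j * p) l) E') ∩ (∏ j, s j).primeFactors =
        (tw (∏ j, s j) E) ∩ (∏ j, s j).primeFactors := by
      ext r
      rw [mem_inter, mem_inter]
      constructor
      · rintro ⟨h1, h2⟩
        exact ⟨(tw_iff hs hp hE h2).1 h1, h2⟩
      · rintro ⟨h1, h2⟩
        exact ⟨(tw_iff hs hp hE h2).2 h1, h2⟩
    exact LF_up hp hE2 hps q hqm v w h g hL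

lemma LR_L17 (h17 : p ≠ 17) (hps : ¬ p ∣ ∏ j, s j) : ∀ v w h g,
    LR j (decide (p ∈ tw (∏ l, Function.update s j (s j * p) l) E')) v w h g →
      L17 (Function.update s j (s j * p)) E' p v w h g := by
  intro v w h g hL
  unfold L17
  rw [if_neg h17]
  exact LR_LF hps v w h g hL

end upd

/-- a new prime at most halves the groups, and a new class doubles them -/
theorem GRP0 (s : Fin 3 → ℕ) (E : Finset ℕ) (q : ℕ) (hs : Squarefree (∏ j, s j))
    (hodd : Odd (∏ j, s j)) (h17 : ¬ 17 ∣ ∏ j, s j) (_hEs : E ⊆ (∏ j, s j).primeFactors)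
    (hq : q.Prime) (hqs : ¬ q ∣ 34 * ∏ j, s j) (F : Finset ℕ) (hF : F = E ∨ F = insert q E) :
    ((V0 s E).ncard ≤ 2 * (V0 (Function.update s 2 (s 2 * q)) F).ncard ∧
      (V17 s E).ncard ≤ 2 * (V17 (Function.update s 2 (s 2 * q)) F).ncard) ∧
    (¬ V0 (Function.update s 2 (s 2 * q)) F ⊆ V0 s E →
      (V0 (Function.update s 2 (s 2 * q)) F).ncard = 2 * (V0 s E).ncard) ∧
    (¬ V17 (Function.update s 2 (s 2 * q)) F ⊆ V17 s E →
      (V17 (Function.update s 2 (s 2 * q)) F).ncard = 2 * (V17 s E).ncard) := by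
  have hps : ¬ q ∣ ∏ j, s j := fun h => hqs (h.mul_left _)
  have hq2 : q ≠ 2 := by
    rintro rfl
    exact hqs ((by norm_num : (2 : ℕ) ∣ 34).mul_right _)
  have hq17 : q ≠ 17 := by
    rintro rfl
    exact hqs ((by norm_num : (17 : ℕ) ∣ 34).mul_right _)
  have hM : 17 * ∏ j, s j ≠ 0 := mul_ne_zero (by norm_num) hs.ne_zero
  have ho : Odd (17 * ∏ j, s j) := Odd.mul (by decide) hodd
  have hpM : ¬ q ∣ 17 * ∏ j, s j := by
    intro h
    rcases (hq.dvd_mul).1 h with h | h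
    · exact hq17 ((Nat.prime_dvd_prime_iff_eq hq (by norm_num)).1 h)
    · exact hps h
  have hE : F ∩ (∏ j, s j).primeFactors = E ∩ (∏ j, s j).primeFactors := by
    rcases hF with rfl | rfl
    · rfl
    · rw [insert_inter_of_notMem]
      exact fun h => hps (Nat.dvd_of_mem_primeFactors h)
  have hs' : Squarefree (∏ l, Function.update s 2 (s 2 * q) l) := by
    rw [upd_prod, Nat.squarefree_mul ((Nat.coprime_comm.1 ((Nat.Prime.coprime_iff_not_dvd hq).2 hps)))]
    exact ⟨hs, hq.prime.squarefree⟩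
  have hodd' : Odd (∏ l, Function.update s 2 (s 2 * q) l) := by
    rw [upd_prod]
    exact hodd.mul (hq.odd_of_ne_two hq2)
  have h17' : ¬ 17 ∣ ∏ l, Function.update s 2 (s 2 * q) l := by
    rw [upd_prod]
    intro h
    rcases ((by norm_num : Nat.Prime 17).dvd_mul).1 h with h | h
    · exact h17 h
    · exact hq17 ((Nat.prime_dvd_prime_iff_eq (by norm_num) hq).1 h).symm
  have f0 := (V0N s E hs hodd).1
  have f1 := (V17N s E hs hodd h17).1
  have f0' := (V0N _ F hs' hodd').1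
  have f1' := (V17N _ F hs' hodd' h17').1
  rw [V0_upd] at f0' ⊢
  rw [V17_upd] at f1' ⊢
  rw [V0_eq] at f0 ⊢
  rw [V17_eq] at f1 ⊢
  refine ⟨⟨?_, ?_⟩, ?_, ?_⟩
  · exact GRPa hs.ne_zero hq hq2 hps (fun r _ => xcLF s E r) (LF_up hq hE hps) (LR_LF hps) f0 f0'
  · exact GRPa hM hq hq2 hpM (fun r _ => xcL17 s E r) (L17_up hs.ne_zero hq hE hps)
      (LR_L17 hq17 hps) f1 f1'
  · intro hne
    exact GRPb hs.ne_zero hodd hq hq2 hps (fun r _ => xcLF s E r) (fun r _ => xcLF _ F r)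
      (fun r hr => isoLF hr) (LF_up hq hE hps) (downLF hE) (LR_LF hps) newLF f0 f0' hne
  · intro hne
    exact GRPb hM ho hq hq2 hpM (fun r _ => xcL17 s E r) (fun r _ => xcL17 _ F r)
      (fun r hr => isoL17 hr) (L17_up hs.ne_zero hq hE hps) (down17 hs.ne_zero hq hE)
      (LR_L17 hq17 hps) (new17 hq17) f1 f1' hne

end Pool.Agent.Y587.MT
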