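import Pool.Agent.Y667.MT.Stm
import Pool.Agent.Y587.MT.GRP0

/-!
# Project MT: part GRP
-/

set_option autoImplicit false

namespace Pool.Agent.Y587.MT

/-- **GRP** (a new prime at most halves the groups, and a new class doubles them). -/
theorem GRP : Pool.Agent.Y667.MT.St_GRP := fun s E q hs hodd h17 hEs hq hqs F hF =>
  GRP0 s E q hs hodd h17 hEs hq hqs F hF

end Pool.Agent.Y587.MT
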