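import Pool.Agent.Y212.RZ.Low4
import Pool.Agent.Y535.RZ.SEL17
import Pool.Agent.Y587.MT.GRP0

/-!
# Project MT: the classes of the 2-torsion points are independent of the classes of the data
-/

set_option autoImplicit false

namespace Pool.Agent.Y587.MT

open Finset Pool.Agent.W262.RK Pool.Agent.W307.RT Pool.Agent.W307.RS Pool.Agent.W307.SE
  Pool.Agent.W307.FK Pool.Agent.W214.RK2 Pool.Agent.Y667.RP Pool.Agent.Y667.RZ
  Pool.Agent.Y448.RZ Pool.Agent.Y212.RZ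

/-- the classes of the four 2-torsion points of `y² = x (x - D a) (x - D b)` -/
theorem tors {a b : ℤ} {D : ℤ} (hD : 0 < D) (hsa : Squarefree (D * a)) (hab1 : Squarefree (a * b))
    (hb : 0 < b) (hba : b < a) : ∃ x2 x4 : ℤ,
    ((1, 1) : ℤ × ℤ) ∈ Sel (D * a) (D * b) ∧ ((a * b, -(D * a)) : ℤ × ℤ) ∈ Sel (D * a) (D * b) ∧
      ((D * a, x2) : ℤ × ℤ) ∈ Sel (D * a) (D * b) ∧
        (Squarefree (D * b) → ((D * b, x4) : ℤ × ℤ) ∈ Sel (D * a) (D * b)) := by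
  have ha : 0 < a := by omega
  have ha0 : D * a ≠ 0 := (mul_pos hD ha).ne'
  have hb0 : D * b ≠ 0 := (mul_pos hD hb).ne'
  have hab : D * a ≠ D * b := by
    intro h
    have := mul_left_cancel₀ hD.ne' h
    omega
  obtain ⟨x2, y2, sx2, hy2, e2, p2, -⟩ := exists_sf (D * a * (D * a - D * b))
    (mul_ne_zero ha0 (sub_ne_zero.2 hab))
  obtain ⟨x4, y4, sx4, hy4, e4, -, n4⟩ := exists_sf (D * b - D * a) (sub_ne_zero.2 hab.symm)
  have sna : Squarefree (-(D * a)) := by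
    rw [← Int.squarefree_natAbs, Int.natAbs_neg, Int.squarefree_natAbs]
    exact hsa
  refine ⟨x2, x4, ?_, ?_, ?_, ?_⟩
  · exact ⟨squarefree_one, squarefree_one, loc_one _ _, fun p _ => loc_one _ _⟩
  · refine ⟨hab1, sna, ?_, fun p _ => ?_⟩
    · exact loc_zero ha0 hb0 (t1 := D) (by ring) hD.ne' (t2 := 1) (by ring) one_ne_zero
    · exact loc_zero ha0 hb0 (t1 := D) (by ring) hD.ne' (t2 := 1) (by ring) one_ne_zero
  · refine ⟨hsa, sx2, ?_, fun p _ => ?_⟩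
    · exact loc_A ha0 hab (t1 := 1) (by ring) one_ne_zero e2 hy2
    · exact loc_A ha0 hab (t1 := 1) (by ring) one_ne_zero e2 hy2
  · intro hsb
    refine ⟨hsb, sx4, ?_, fun p _ => ?_⟩
    · exact loc_B hb0 hab (t1 := 1) (by ring) one_ne_zero e4 hy4
    · exact loc_B hb0 hab (t1 := 1) (by ring) one_ne_zero e4 hy4

/-- the counting argument -/
theorem four {V V' : Set (ℤ × ℤ)} (T : Fin 4 → ℤ × ℤ) {m n : ℕ} (hm : m.Prime) (hn : n.Prime)
    (hsub : V ⊆ V') (hfin : V'.Finite) (hmul : ∀ x ∈ V', ∀ y ∈ V', sp2 x y ∈ V')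
    (hsq : ∀ x ∈ V', Squarefree x.1 ∧ Squarefree x.2) (hT : ∀ i, T i ∈ V')
    (hVm : ∀ x ∈ V, dv m x.1 = false) (hVn : ∀ x ∈ V, dv n x.1 = false)
    (hTi : ∀ i j, dv m (T i).1 = dv m (T j).1 → dv n (T i).1 = dv n (T j).1 → i = j) :
    4 * V.ncard ≤ V'.ncard := by
  classical
  let f : (ℤ × ℤ) × Fin 4 → ℤ × ℤ := fun z => sp2 (T z.2) z.1
  have hinj : Set.InjOn f (V ×ˢ (Set.univ : Set (Fin 4))) := by
    rintro ⟨x, i⟩ hx ⟨y, j⟩ hy h
    have hx1 : x ∈ V := hx.1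
    have hy1 : y ∈ V := hy.1
    have h0 : sp2 (T i) x = sp2 (T j) y := h
    have h1 : sp (T i).1 x.1 = sp (T j).1 y.1 := congrArg Prod.fst h0
    have em := congrArg (dv m) h1
    have en := congrArg (dv n) h1
    have sx := hsq x (hsub hx1)
    have sy := hsq y (hsub hy1)
    rw [(sp_dv (hsq _ (hT i)).1 sx.1 m hm).1, (sp_dv (hsq _ (hT j)).1 sy.1 m hm).1,
      hVm x hx1, hVm y hy1, Bool.xor_false, Bool.xor_false] at em
    rw [(sp_dv (hsq _ (hT i)).1 sx.1 n hn).1, (sp_dv (hsq _ (hT j)).1 sy.1 n hn).1,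
      hVn x hx1, hVn y hy1, Bool.xor_false, Bool.xor_false] at en
    obtain rfl := hTi i j em en
    have := sp2_injOn (A := V) (hsq _ (hT i)).1 (hsq _ (hT i)).2
      (fun w hw => hsq w (hsub hw)) hx1 hy1 h0
    rw [this]
  have himg : f '' (V ×ˢ (Set.univ : Set (Fin 4))) ⊆ V' := by
    rintro _ ⟨⟨x, i⟩, hx, rfl⟩
    exact hmul _ (hT i) _ (hsub hx.1)
  have h1 := Set.ncard_le_ncard himg hfin
  rw [hinj.ncard_image, Set.ncard_prod, Set.ncard_univ, Nat.card_eq_fintype_card,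
    Fintype.card_fin] at h1
  omega

/-- the torsion classes and the data, for `D = 1` and `D = 17` -/
theorem tor_gen {s s' : Fin 3 → ℕ} {m n : ℕ} {D : ℤ} {V V' : Set (ℤ × ℤ)} (hm : m.Prime)
    (hn : n.Prime) (hD : 0 < D) (hmn : m ≠ n) (e0 : s' 0 = s 0 * m) (e1 : s' 1 = s 1 * n)
    (hsa : Squarefree (D * (s' 0 : ℤ))) (hsb : Squarefree (D * (s' 1 : ℤ)))
    (hab1 : Squarefree ((s' 0 : ℤ) * s' 1)) (hlt : s' 1 < s' 0) (hms1 : ¬ m ∣ s' 1)
    (hns0 : ¬ n ∣ s' 0) (hmD : ¬ (m : ℤ) ∣ D) (hnD : ¬ (n : ℤ) ∣ D)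
    (hSel : Sel (D * (s' 0 : ℤ)) (D * (s' 1 : ℤ)) ⊆ V')
    (hsub : V ⊆ V') (hfin : V'.Finite) (hmul : ∀ x ∈ V', ∀ y ∈ V', sp2 x y ∈ V')
    (hsq : ∀ x ∈ V', Squarefree x.1 ∧ Squarefree x.2)
    (hVm : ∀ x ∈ V, dv m x.1 = false) (hVn : ∀ x ∈ V, dv n x.1 = false) :
    4 * V.ncard ≤ V'.ncard := by
  have hb : (0 : ℤ) < s' 1 := by
    have : s' 1 ≠ 0 := by
      intro h
      rw [h] at hsb
      simp at hsb
    omega
  have hmi := Nat.prime_iff_prime_int.1 hm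
  have hni := Nat.prime_iff_prime_int.1 hn
  obtain ⟨x2, x4, t0, t1, t2, t3⟩ := tors (a := (s' 0 : ℤ)) (b := (s' 1 : ℤ)) hD hsa hab1 hb
    (by exact_mod_cast hlt)
  have t3 := t3 hsb
  have m0 : (m : ℤ) ∣ (s' 0 : ℤ) := by rw [e0]; exact_mod_cast dvd_mul_left m (s 0)
  have n1 : (n : ℤ) ∣ (s' 1 : ℤ) := by rw [e1]; exact_mod_cast dvd_mul_left n (s 1)
  have m1 : ¬ (m : ℤ) ∣ (s' 1 : ℤ) := fun h => hms1 (by exact_mod_cast h)
  have n0 : ¬ (n : ℤ) ∣ (s' 0 : ℤ) := fun h => hns0 (by exact_mod_cast h)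
  have hone : ∀ p : ℕ, p.Prime → ¬ (p : ℤ) ∣ 1 := fun p hp h => hp.one_lt.ne'
    (Nat.dvd_one.1 (by exact_mod_cast h))
  have a1 : dv m (1 : ℤ) = false := by
    unfold dv; rw [decide_eq_false_iff_not]; exact hone m hm
  have a2 : dv n (1 : ℤ) = false := by
    unfold dv; rw [decide_eq_false_iff_not]; exact hone n hn
  have b1 : dv m ((s' 0 : ℤ) * s' 1) = true := by
    unfold dv; rw [decide_eq_true_iff]; exact m0.mul_right _
  have b2 : dv n ((s' 0 : ℤ) * s' 1) = true := by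
    unfold dv; rw [decide_eq_true_iff]; exact n1.mul_left _
  have c1 : dv m (D * (s' 0 : ℤ)) = true := by
    unfold dv; rw [decide_eq_true_iff]; exact m0.mul_left _
  have c2 : dv n (D * (s' 0 : ℤ)) = false := by
    unfold dv; rw [decide_eq_false_iff_not]
    intro h
    rcases hni.dvd_or_dvd h with h | h
    · exact hnD h
    · exact n0 h
  have d1 : dv m (D * (s' 1 : ℤ)) = false := by
    unfold dv; rw [decide_eq_false_iff_not]
    intro h
    rcases hmi.dvd_or_dvd h with h | h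
    · exact hmD h
    · exact m1 h
  have d2 : dv n (D * (s' 1 : ℤ)) = true := by
    unfold dv; rw [decide_eq_true_iff]; exact n1.mul_left _
  refine four (![(1, 1), ((s' 0 : ℤ) * s' 1, -(D * (s' 0 : ℤ))), (D * (s' 0 : ℤ), x2),
    (D * (s' 1 : ℤ), x4)] : Fin 4 → ℤ × ℤ) hm hn hsub hfin hmul hsq ?_ hVm hVn ?_
  · intro i
    fin_cases i
    · exact hSel t0
    · exact hSel t1
    · exact hSel t2
    · exact hSel t3
  · intro i j
    fin_cases i <;> fin_cases j <;> simp [a1, a2, b1, b2, c1, c2, d1, d2]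

lemma sq_not_dvd_of_mul {x y p : ℕ} (hp : p.Prime) (h : Squarefree (x * y)) (hx : p ∣ x) :
    ¬ p ∣ y := by
  intro hy
  have h1 : p * p ∣ x * y := mul_dvd_mul hx hy
  exact hp.one_lt.ne' (Nat.isUnit_iff.1 (h p h1))

lemma sqf_cast {x : ℕ} (h : Squarefree x) : Squarefree (x : ℤ) := by
  rwa [← Int.squarefree_natAbs, Int.natAbs_natCast]

theorem TOR0 (s s' : Fin 3 → ℕ) (m n l : ℕ) (pm : m.Prime) (pn : n.Prime) (_pl : l.Prime)
    (e0 : s' 0 = s 0 * m) (e1 : s' 1 = s 1 * n) (e2 : s' 2 = s 2 * l)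
    (sqf : Squarefree (∏ j, s' j)) (odd : Odd (∏ j, s' j))
    (gt : ∀ p : ℕ, p.Prime → p ∣ ∏ j, s' j → 17 < p)
    (eq : (s' 0 : ℤ) - s' 1 = 32 * s' 2) (a8 : s' 0 % 8 = 1) (b8 : s' 1 % 8 = 1)
    (a17 : s' 0 % 17 = 1) (b17 : s' 1 % 17 = 15) (E : Finset ℕ) :
    (V0 s E ⊆ V0 s' (sgF (s' 0) (s' 1) (∏ j, s' j)) →
      4 * (V0 s E).ncard ≤ (V0 s' (sgF (s' 0) (s' 1) (∏ j, s' j))).ncard) ∧
    (V17 s E ⊆ V17 s' (sgF (s' 0) (s' 1) (∏ j, s' j)) →
      4 * (V17 s E).ncard ≤ (V17 s' (sgF (s' 0) (s' 1) (∏ j, s' j))).ncard) := by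
  have h3 : ∏ j, s' j = s' 0 * s' 1 * s' 2 := by rw [Fin.prod_univ_three]
  have h3s : ∏ j, s j = s 0 * s 1 * s 2 := by rw [Fin.prod_univ_three]
  have h17 : ¬ 17 ∣ ∏ j, s' j := fun h => lt_irrefl _ (gt 17 (by norm_num) h)
  have hm0 : m ∣ s' 0 := by rw [e0]; exact dvd_mul_left _ _
  have hn1 : n ∣ s' 1 := by rw [e1]; exact dvd_mul_left _ _
  have hmP : m ∣ ∏ j, s' j := hm0.trans (by rw [h3, mul_assoc]; exact dvd_mul_right _ _)
  have hnP : n ∣ ∏ j, s' j := hn1.trans (by rw [h3, mul_comm (s' 0)]; exact (dvd_mul_right _ _).mul_right _)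
  have hm17 := gt m pm hmP
  have hn17 := gt n pn hnP
  have sq01 : Squarefree (s' 0 * s' 1) := by
    rw [h3] at sqf
    exact sqf.squarefree_of_dvd (dvd_mul_right _ _)
  have hms1 : ¬ m ∣ s' 1 := sq_not_dvd_of_mul pm sq01 hm0
  have hns0 : ¬ n ∣ s' 0 := by
    rw [mul_comm] at sq01
    exact sq_not_dvd_of_mul pn sq01 hn1
  have sq0 : Squarefree (s' 0) := sq01.squarefree_of_dvd (dvd_mul_right _ _)
  have sq1 : Squarefree (s' 1) := sq01.squarefree_of_dvd (dvd_mul_left _ _)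
  have hprod : ∏ j, s' j = (∏ j, s j) * (m * n * l) := by
    rw [h3, h3s, e0, e1, e2]
    ring
  have hmM : ¬ m ∣ ∏ j, s j := by
    intro h
    rw [hprod] at sqf
    exact sq_not_dvd_of_mul pm sqf h ((dvd_mul_right _ _).mul_right _)
  have hnM : ¬ n ∣ ∏ j, s j := by
    intro h
    rw [hprod] at sqf
    exact sq_not_dvd_of_mul pn sqf h ((dvd_mul_left _ _).mul_right _)
  have hm17M : ¬ m ∣ 17 * ∏ j, s j := by
    intro h
    rcases (pm.dvd_mul).1 h with h | h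
    · have := (Nat.prime_dvd_prime_iff_eq pm (by norm_num)).1 h
      omega
    · exact hmM h
  have hn17M : ¬ n ∣ 17 * ∏ j, s j := by
    intro h
    rcases (pn.dvd_mul).1 h with h | h
    · have := (Nat.prime_dvd_prime_iff_eq pn (by norm_num)).1 h
      omega
    · exact hnM h
  have hmn : m ≠ n := by
    rintro rfl
    exact hms1 hn1
  have hpos2 : 0 < s' 2 := by
    rcases Nat.eq_zero_or_pos (s' 2) with h | h
    · rw [h3, h, mul_zero] at sqf
      exact absurd sqf not_squarefree_zero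
    · exact h
  have hlt : s' 1 < s' 0 := by omega
  obtain ⟨c0, c17⟩ := Pool.Agent.Y535.RZ.SEL17 s' sqf odd h17 eq a8 b8 a17 b17
  have h17p : Nat.Prime 17 := by norm_num
  have hD1 : ∀ p : ℕ, p.Prime → ¬ (p : ℤ) ∣ 1 := fun p hp h => hp.one_lt.ne'
    (Nat.dvd_one.1 (by exact_mod_cast h))
  have hD17 : ∀ p : ℕ, p.Prime → 17 < p → ¬ (p : ℤ) ∣ 17 := by
    intro p hp hlt h
    have := (Nat.prime_dvd_prime_iff_eq hp h17p).1 (by exact_mod_cast h)
    omega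
  have cop17 : ∀ j, Nat.Coprime 17 (s' j) := by
    intro j
    rw [Nat.Prime.coprime_iff_not_dvd h17p]
    exact fun h => h17 (h.trans (Finset.dvd_prod_of_mem _ (Finset.mem_univ j)))
  constructor
  · intro hsub
    refine tor_gen (D := 1) pm pn one_pos hmn e0 e1 ?_ ?_ ?_ hlt hms1 hns0 (hD1 m pm) (hD1 n pn)
      ?_ hsub (V0N _ _ sqf odd).1 ?_ ?_ ?_ ?_
    · rw [one_mul]; exact sqf_cast sq0
    · rw [one_mul]; exact sqf_cast sq1
    · have := sqf_cast sq01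
      rwa [Nat.cast_mul] at this
    · rw [one_mul, one_mul]; exact c0
    · exact fun x hx y hy => V0_mul hx hy
    · exact fun x hx => ⟨hx.1, hx.2.1⟩
    · exact fun x hx => (VG_unr pm (by omega) hmM (by rw [V0_eq] at hx; exact hx)).1
    · exact fun x hx => (VG_unr pn (by omega) hnM (by rw [V0_eq] at hx; exact hx)).1
  · intro hsub
    refine tor_gen (D := 17) pm pn (by norm_num) hmn e0 e1 ?_ ?_ ?_ hlt hms1 hns0 (hD17 m pm hm17)
      (hD17 n pn hn17) c17 hsub (V17N _ _ sqf odd h17).1 ?_ ?_ ?_ ?_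
    · have : Squarefree (17 * s' 0) := (Nat.squarefree_mul (cop17 0)).2 ⟨h17p.prime.squarefree, sq0⟩
      have := sqf_cast this
      rwa [Nat.cast_mul] at this
    · have : Squarefree (17 * s' 1) := (Nat.squarefree_mul (cop17 1)).2 ⟨h17p.prime.squarefree, sq1⟩
      have := sqf_cast this
      rwa [Nat.cast_mul] at this
    · have := sqf_cast sq01
      rwa [Nat.cast_mul] at this
    · exact fun x hx y hy => VG_mul (fun q _ => xcL17 _ _ q) hx hy
    · exact fun x hx => ⟨hx.1, hx.2.1⟩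
    · exact fun x hx => (VG_unr pm (by omega) hm17M (by rw [V17_eq] at hx; exact hx)).1
    · exact fun x hx => (VG_unr pn (by omega) hn17M (by rw [V17_eq] at hx; exact hx)).1

end Pool.Agent.Y587.MT
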