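import Pool.Agent.Y667.MT.Stm
import Pool.Agent.Y587.MT.TOR0

/-!
# Project MT: part TOR
-/

set_option autoImplicit false

namespace Pool.Agent.Y587.MT

/-- **TOR** (the classes of the 2-torsion points are independent of the classes of the data). -/
theorem TOR : Pool.Agent.Y667.MT.St_TOR := fun s s' m n l h E =>
  TOR0 s s' m n l h.pm h.pn h.pl h.e0 h.e1 h.e2 h.sqf h.odd h.gt h.eq h.a8 h.b8 h.a17 h.b17 E

end Pool.Agent.Y587.MT
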